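import Pool.Agent.P.MP_7a8567_an.PX

/-! Derivations and twisted coefficient maps on Laurent series. -/

open Polynomial

noncomputable section

namespace Ivrii.PX

/-- The coefficientwise algebra structure is preferred on Laurent series. -/
instance (priority := high) lsAlg (k L : Type*) [CommSemiring k] [CommRing L] [Algebra k L] :
    Algebra k (LaurentSeries L) := HahnSeries.instAlgebra

lemma algebraMap_ls (k : Type*) {L : Type*} [CommSemiring k] [CommRing L] [Algebra k L] (a : k) :
    algebraMap k (LaurentSeries L) a = HahnSeries.C (algebraMap k L a) := rfl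

instance (L : Type*) [Field L] [CharZero L] : CharZero (LaurentSeries L) :=
  algebraRat.charZero _

section Gen

variable {L L' : Type*} [CommRing L] [CommRing L']

/-- Apply an additive map depending on the exponent to each coefficient. -/
def cw (T : ℤ → L →+ L') : LaurentSeries L →+ LaurentSeries L' where
  toFun f := ⟨fun i => T i (f.coeff i), f.isPWO_support.mono fun i hi h => hi (by simp [h])⟩
  map_zero' := by ext; simp
  map_add' f g := by ext; simp

@[simp] lemma coeff_cw (T : ℤ → L →+ L') (f : LaurentSeries L) (i : ℤ) :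
    (cw T f).coeff i = T i (f.coeff i) := rfl

lemma support_cw (T : ℤ → L →+ L') (f : LaurentSeries L) : (cw T f).support ⊆ f.support :=
  fun i hi h => hi (by simp [h])

lemma coeff_mul_sub {x y : LaurentSeries L'} {s t : Set ℤ} (hs : s.IsPWO) (ht : t.IsPWO)
    (hx : x.support ⊆ s) (hy : y.support ⊆ t) (a : ℤ) :
    (x * y).coeff a = ∑ ij ∈ Finset.antidiagonal hs ht a, x.coeff ij.1 * y.coeff ij.2 := by
  rw [HahnSeries.coeff_mul_left' hs hx]
  refine Finset.sum_subset (Finset.antidiagonal_mono_right hy) fun ij h1 h2 => ?_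
  rw [Finset.mem_antidiagonal] at h1 h2
  have : y.coeff ij.2 = 0 := by
    by_contra h
    exact h2 ⟨h1.1, h, h1.2.2⟩
  rw [this, mul_zero]

lemma cw_mul (T : ℤ → L →+ L') (h : ∀ i j a b, T (i + j) (a * b) = T i a * T j b)
    (f g : LaurentSeries L) : cw T (f * g) = cw T f * cw T g := by
  ext n
  rw [coeff_cw, HahnSeries.coeff_mul, map_sum,
    coeff_mul_sub f.isPWO_support g.isPWO_support (support_cw T f) (support_cw T g)]
  refine Finset.sum_congr rfl fun ij hij => ?_
  rw [← (Finset.mem_antidiagonal.1 hij).2.2, h, coeff_cw, coeff_cw]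

lemma cw_leibniz (T : ℤ → L →+ L) (h : ∀ i j a b, T (i + j) (a * b) = a * T j b + b * T i a)
    (f g : LaurentSeries L) : cw T (f * g) = f * cw T g + g * cw T f := by
  ext n
  rw [coeff_cw, HahnSeries.coeff_mul, map_sum, HahnSeries.coeff_add, mul_comm g,
    coeff_mul_sub f.isPWO_support g.isPWO_support subset_rfl (support_cw T g),
    coeff_mul_sub f.isPWO_support g.isPWO_support (support_cw T f) subset_rfl,
    ← Finset.sum_add_distrib]
  refine Finset.sum_congr rfl fun ij hij => ?_
  rw [← (Finset.mem_antidiagonal.1 hij).2.2, h, coeff_cw, coeff_cw, mul_comm (g.coeff _)]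

/-- The ring map `∑ a_i u ^ i ↦ ∑ φ a_i (ζ u) ^ i`. -/
def tw (φ : L →+* L') (ζ : L'ˣ) : LaurentSeries L →+* LaurentSeries L' where
  __ := cw fun i => (AddMonoidHom.mulLeft ((ζ ^ i : L'ˣ) : L')).comp φ.toAddMonoidHom
  map_one' := by
    ext i
    by_cases h : i = 0 <;> simp [h]
  map_mul' := cw_mul _ fun i j a b => by
    simp only [zpow_add, Units.val_mul, AddMonoidHom.coe_comp, AddMonoidHom.coe_mulLeft,
      RingHom.toAddMonoidHom_eq_coe, AddMonoidHom.coe_coe, Function.comp_apply, map_mul]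
    ring

lemma coeff_tw (φ : L →+* L') (ζ : L'ˣ) (f : LaurentSeries L) (i : ℤ) :
    (tw φ ζ f).coeff i = ((ζ ^ i : L'ˣ) : L') * φ (f.coeff i) := rfl

/-- Coefficientwise ring map. -/
def cmap (φ : L →+* L') : LaurentSeries L →+* LaurentSeries L' := tw φ 1

@[simp] lemma coeff_cmap (φ : L →+* L') (f : LaurentSeries L) (i : ℤ) :
    (cmap φ f).coeff i = φ (f.coeff i) := by simp [cmap, coeff_tw]

/-- The substitution `u ↦ ζ u`. -/
def rot (ζ : Lˣ) : LaurentSeries L →+* LaurentSeries L := tw (RingHom.id L) ζ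

@[simp] lemma coeff_rot (ζ : Lˣ) (f : LaurentSeries L) (i : ℤ) :
    (rot ζ f).coeff i = ((ζ ^ i : Lˣ) : L) * f.coeff i := rfl

lemma rot_rot (ζ ξ : Lˣ) (f : LaurentSeries L) : rot ζ (rot ξ f) = rot (ζ * ξ) f := by
  ext i
  simp [mul_zpow, mul_assoc]

lemma rot_one (f : LaurentSeries L) : rot 1 f = f := by
  ext i
  simp

lemma rot_injective (ζ : Lˣ) : Function.Injective (rot ζ) := fun f g h => by
  rw [← rot_one f, ← rot_one g, ← inv_mul_cancel ζ, ← rot_rot, ← rot_rot, h]

lemma rot_single (ζ : Lˣ) (i : ℤ) (a : L) :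
    rot ζ (HahnSeries.single i a) = HahnSeries.single i (((ζ ^ i : Lˣ) : L) * a) := by
  ext j
  by_cases h : j = i <;> simp [h]

lemma rot_C (ζ : Lˣ) (a : L) : rot ζ (HahnSeries.C a) = HahnSeries.C a := by
  simp [rot_single]

lemma rot_ram (n : ℕ+) {ζ : Lˣ} (h : ζ ^ (n : ℕ) = 1) (f : LaurentSeries L) :
    rot ζ (ram n f) = ram n f := by
  ext j
  by_cases hj : ((n : ℕ) : ℤ) ∣ j
  · obtain ⟨i, rfl⟩ := hj
    rw [coeff_rot, zpow_mul, zpow_natCast, h, one_zpow, Units.val_one, one_mul]
  · rw [coeff_rot, coeff_ram_of_not_dvd _ _ hj, mul_zero]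

lemma cmap_single (φ : L →+* L') (i : ℤ) (a : L) :
    cmap φ (HahnSeries.single i a) = HahnSeries.single i (φ a) := by
  ext j
  by_cases h : j = i <;> simp [h]

lemma cmap_C (φ : L →+* L') (a : L) : cmap φ (HahnSeries.C a) = HahnSeries.C (φ a) := by
  simp [cmap_single]

lemma cmap_ram (φ : L →+* L') (n : ℕ+) (f : LaurentSeries L) :
    cmap φ (ram n f) = ram n (cmap φ f) := by
  ext j
  simp only [coeff_cmap, coeff_ram]
  split_ifs <;> simp

lemma cmap_ofPowerSeries (φ : L →+* L') (f : PowerSeries L) :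
    cmap φ (HahnSeries.ofPowerSeries ℤ L f) =
      HahnSeries.ofPowerSeries ℤ L' (PowerSeries.map φ f) := by
  ext j
  simp only [coeff_cmap, PowerSeries.coeff_coe]
  split_ifs <;> simp

lemma mem_range_ram (n : ℕ+) {f : LaurentSeries L}
    (h : ∀ j, ¬ ((n : ℕ) : ℤ) ∣ j → f.coeff j = 0) : ∃ g, ram n g = f := by
  have hn : (0 : ℤ) < (n : ℕ) := by exact_mod_cast n.pos
  refine ⟨HahnSeries.ofSuppBddBelow (fun i => f.coeff (((n : ℕ) : ℤ) * i))
    ⟨min f.order 0, fun i hi => ?_⟩, ?_⟩
  · have := HahnSeries.order_le_of_coeff_ne_zero hi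
    rcases le_or_gt 0 i with h0 | h0
    · exact (min_le_right _ _).trans h0
    · exact (min_le_left _ _).trans (by nlinarith)
  · ext j
    by_cases hj : ((n : ℕ) : ℤ) ∣ j
    · obtain ⟨i, rfl⟩ := hj
      rw [coeff_ram_mul]
      rfl
    · rw [coeff_ram_of_not_dvd _ _ hj, h j hj]

variable (k : Type*) [CommRing k] [Algebra k L]

/-- A derivation of Laurent series acting on each coefficient. -/
def cwDer (T : ℤ → L →ₗ[k] L) (h : ∀ i j a b, T (i + j) (a * b) = a * T j b + b * T i a) :
    Derivation k (LaurentSeries L) (LaurentSeries L) :=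
  Derivation.mk'
    { __ := cw fun i => (T i).toAddMonoidHom
      map_smul' := fun c f => by ext i; simp }
    (cw_leibniz _ h)

variable (L) in
/-- The Euler derivation `u d/du`. -/
def euler : Derivation k (LaurentSeries L) (LaurentSeries L) :=
  cwDer k (fun i => LinearMap.mulLeft k (i : L)) fun i j a b => by
    simp only [LinearMap.mulLeft_apply]
    push_cast
    ring

@[simp] lemma coeff_euler (f : LaurentSeries L) (i : ℤ) :
    (euler L k f).coeff i = (i : L) * f.coeff i := rfl

variable (L) in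
/-- The derivation `d/du`. -/
def dU : Derivation k (LaurentSeries L) (LaurentSeries L) :=
  (HahnSeries.single (-1) 1 : LaurentSeries L) • euler L k

@[simp] lemma coeff_dU (f : LaurentSeries L) (i : ℤ) :
    (dU L k f).coeff i = ((i + 1 : ℤ) : L) * f.coeff (i + 1) := by
  rw [dU, Derivation.smul_apply, smul_eq_mul, HahnSeries.coeff_single_mul, one_mul, coeff_euler,
    sub_neg_eq_add]

lemma euler_eq (f : LaurentSeries L) : euler L k f = HahnSeries.single 1 1 * dU L k f := by
  ext i
  rw [HahnSeries.coeff_single_mul, one_mul, coeff_dU, coeff_euler, sub_add_cancel]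

lemma dU_ofPowerSeries (f : PowerSeries L) :
    dU L k (HahnSeries.ofPowerSeries ℤ L f) =
      HahnSeries.ofPowerSeries ℤ L (PowerSeries.derivative L f) := by
  ext j
  rw [coeff_dU]
  rcases lt_trichotomy j (-1) with h | rfl | h
  · rw [PowerSeries.coeff_coe, PowerSeries.coeff_coe, if_pos (by omega), if_pos (by omega),
      mul_zero]
  · simp [PowerSeries.coeff_coe]
  · obtain ⟨n, rfl⟩ := Int.eq_ofNat_of_zero_le (show 0 ≤ j by omega)
    rw [← Nat.cast_succ, LaurentSeries.coeff_coe_powerSeries, LaurentSeries.coeff_coe_powerSeries,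
      PowerSeries.coeff_derivative, mul_comm]
    simp

lemma euler_ram (n : ℕ+) (f : LaurentSeries L) :
    euler L k (ram n f) = ((n : ℕ) : LaurentSeries L) * ram n (euler L k f) := by
  ext j
  rw [← nsmul_eq_mul, HahnSeries.coeff_nsmul, Pi.smul_apply, coeff_euler, nsmul_eq_mul]
  by_cases hj : ((n : ℕ) : ℤ) ∣ j
  · obtain ⟨i, rfl⟩ := hj
    rw [coeff_ram_mul, coeff_ram_mul, coeff_euler]
    push_cast
    ring
  · rw [coeff_ram_of_not_dvd _ _ hj, coeff_ram_of_not_dvd _ _ hj, mul_zero, mul_zero]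

lemma euler_rot (ζ : Lˣ) (f : LaurentSeries L) : euler L k (rot ζ f) = rot ζ (euler L k f) := by
  ext j
  simp only [coeff_euler, coeff_rot]
  ring

variable {k}

/-- A derivation of the coefficient ring, acting coefficientwise. -/
def dcoef (d : Derivation k L L) : Derivation k (LaurentSeries L) (LaurentSeries L) :=
  cwDer k (fun _ => d.toLinearMap) fun _ _ a b => d.leibniz a b

@[simp] lemma coeff_dcoef (d : Derivation k L L) (f : LaurentSeries L) (i : ℤ) :
    (dcoef d f).coeff i = d (f.coeff i) := rfl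

lemma dcoef_ram (d : Derivation k L L) (n : ℕ+) (f : LaurentSeries L) :
    dcoef d (ram n f) = ram n (dcoef d f) := by
  ext j
  simp only [coeff_dcoef, coeff_ram]
  split_ifs <;> simp

lemma dcoef_C (d : Derivation k L L) (a : L) :
    dcoef d (HahnSeries.C a) = HahnSeries.C (d a) := by
  ext j
  by_cases h : j = 0 <;> simp [h]

lemma dcoef_single (d : Derivation k L L) (i : ℤ) (a : L) :
    dcoef d (HahnSeries.single i a) = HahnSeries.single i (d a) := by
  ext j
  by_cases h : j = i <;> simp [h]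

lemma euler_C (a : L) : euler L k (HahnSeries.C a) = 0 := by
  ext j
  by_cases h : j = 0 <;> simp [h]

lemma dU_C (a : L) : dU L k (HahnSeries.C a) = 0 := by
  rw [dU, Derivation.smul_apply, euler_C, smul_zero]

lemma dU_X : dU L k (HahnSeries.single 1 1) = 1 := by
  ext j
  by_cases h : j = 0 <;> simp [h]

end Gen

section Fld

variable {L : Type*} [Field L]

lemma order_rot (ζ : Lˣ) (f : LaurentSeries L) : (rot ζ f).order = f.order := by
  have : (rot ζ f).support = f.support := by
    ext i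
    simp only [HahnSeries.mem_support, coeff_rot, ne_eq, Units.mul_right_eq_zero]
  by_cases hf : f = 0
  · simp [hf]
  have hr : rot ζ f ≠ 0 := fun h => hf (rot_injective ζ (h.trans (map_zero _).symm))
  rw [HahnSeries.order_of_ne hf, HahnSeries.order_of_ne hr]
  simp only [this]

/-- A series fixed by a primitive `n`-th root of unity is a series in `u ^ n`. -/
lemma mem_range_of_rot (n : ℕ+) {ζ : Lˣ} (hζ : IsPrimitiveRoot ζ n) {f : LaurentSeries L}
    (h : rot ζ f = f) : ∃ g, ram n g = f := by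
  refine mem_range_ram n fun j hj => ?_
  have := congrArg (fun x => x.coeff j) h
  simp only [coeff_rot] at this
  by_contra h0
  have h1 : ζ ^ j = 1 := Units.ext (mul_right_cancel₀ h0 (by rw [this]; simp))
  exact hj ((hζ.zpow_eq_one_iff_dvd j).1 h1)

lemma exists_primitiveRoot [IsAlgClosed L] [CharZero L] (n : ℕ+) :
    ∃ ζ : Lˣ, IsPrimitiveRoot ζ n := by
  have : NeZero ((n : ℕ) : L) := ⟨Nat.cast_ne_zero.2 n.ne_zero⟩
  obtain ⟨z, hz⟩ := HasEnoughRootsOfUnity.exists_primitiveRoot L n
  exact ⟨(hz.isUnit n.ne_zero).unit, hz.isUnit_unit n.ne_zero⟩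

lemma mem_range_of_rot_all [IsAlgClosed L] [CharZero L] (n : ℕ+) {f : LaurentSeries L}
    (h : ∀ ζ : Lˣ, ζ ^ (n : ℕ) = 1 → rot ζ f = f) : ∃ g, ram n g = f := by
  obtain ⟨ζ, hζ⟩ := exists_primitiveRoot (L := L) n
  exact mem_range_of_rot n hζ (h ζ hζ.pow_eq_one)

lemma eq_C_of_euler [CharZero L] {k : Type*} [CommRing k] [Algebra k L] {f : LaurentSeries L}
    (h : euler L k f = 0) : f = HahnSeries.C (f.coeff 0) := by
  ext j
  by_cases hj : j = 0
  · simp [hj]
  · have := congrArg (fun x => x.coeff j) h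
    simp only [coeff_euler, HahnSeries.coeff_zero, mul_eq_zero, Int.cast_eq_zero, hj,
      false_or] at this
    simp [this, hj]

end Fld

end Ivrii.PX
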