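import Mathlib

set_option autoImplicit false

/-!
Shared definitions for the algebraic half of the Ivrii project
(paper: team-store h58_ivrii_proof.md, sections 2-5 and 7).
Lines are pairs `(t, P)`, points are pairs `(z, w)`.
-/

namespace Ivrii

open MvPolynomial IntermediateField

section Fields
variable {K L : Type} [Field K] [Field L] [Algebra K L]

/-- automorphisms fixing `X` pointwise -/
def G (X : IntermediateField K L) : Subgroup (L ≃ₐ[K] L) := X.fixingSubgroup

lemma mem_G {X : IntermediateField K L} {σ : L ≃ₐ[K] L} : σ ∈ G X ↔ ∀ x ∈ X, σ x = x :=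
  IntermediateField.mem_fixingSubgroup_iff X σ

/-- `u` is a square in `X` -/
def Sq (X : IntermediateField K L) (u : L) : Prop := ∃ r ∈ X, u = r ^ 2

/-- `G X` induces every permutation of the finite set `S` -/
def Full (X : IntermediateField K L) (S : Finset L) : Prop :=
  ∀ π : Equiv.Perm S, ∃ σ ∈ G X, ∀ x : S, σ x = π x

/-- a finite set, stable under `G B`, on which the elements fixing `S` act through a 2-group -/
structure TwoSet (B : IntermediateField K L) (S Y : Finset L) : Prop where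
  stab : ∀ σ ∈ G B, ∀ y ∈ Y, σ y ∈ Y
  two : ∃ e : ℕ, ∀ σ ∈ G B, (∀ x ∈ S, σ x = x) → ∀ y ∈ Y, (σ ^ 2 ^ e) y = y

/-- elements of `G B` whose cube is trivial on `Y` are realised on `Y` by `G X` -/
def Odd3 (B X : IntermediateField K L) (Y : Finset L) : Prop :=
  ∀ σ ∈ G B, (∀ y ∈ Y, (σ ^ 3) y = y) → ∃ σ' ∈ G X, ∀ y ∈ Y, σ' y = σ y

open Classical in
/-- the permutation of `S` induced by `σ` (the identity if `S` is not stable) -/
noncomputable def pm (σ : L ≃ₐ[K] L) (S : Finset L) : Equiv.Perm S :=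
  if h : ∀ x, σ.toEquiv x ∈ S ↔ x ∈ S then Equiv.Perm.subtypePerm σ.toEquiv h else 1

open Classical in
/-- the sign of `σ` on `S` -/
noncomputable def sg (σ : L ≃ₐ[K] L) (S : Finset L) : ℤˣ := Equiv.Perm.sign (pm σ S)

end Fields

section Geo
variable {k L : Type} [Field k] [Field L] [Algebra k L]

/-- polynomials in two variables: functions of a line `(t, P)` or of a point `(z, w)` -/
abbrev R2 (k : Type) [Field k] := MvPolynomial (Fin 2) k

/-- evaluation at a pair -/
noncomputable def ev (a : L × L) : R2 k →ₐ[k] L := aeval ![a.1, a.2]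

/-- the pair is algebraically independent -/
def Gen (k : Type) [Field k] [Algebra k L] (a : L × L) : Prop := AlgebraicIndependent k ![a.1, a.2]

/-- the field generated by a pair -/
noncomputable def Fd (k : Type) [Field k] [Algebra k L] (a : L × L) : IntermediateField k L :=
  adjoin k {a.1, a.2}

/-- transcendence degree at most two -/
def TD2 (k L : Type) [Field k] [Field L] [Algebra k L] : Prop :=
  ∀ l : L × L, Gen k l → Algebra.IsAlgebraic (Fd k l) L

/-- the point `A = (z, w)` is on the line `l = (t, P)` -/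
def On (l A : L × L) : Prop := l.2 = A.1 / l.1 - A.2 * l.1

/-- position of a point on a line -/
def pos (l A : L × L) : L := (A.1 / l.1 + A.2 * l.1) / 2

/-- the point with position `x` -/
def pt (l : L × L) (x : L) : L × L := (l.1 * (x + l.2 / 2), (x - l.2 / 2) / l.1)

/-- the line through `A` with direction `t` -/
def thru (A : L × L) (t : L) : L × L := (t, A.1 / t - A.2 * t)

/-- the curve `Q` restricted to the line `l`, as a polynomial in the position -/
noncomputable def fl (Q : R2 k) (l : L × L) : Polynomial L :=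
  aeval ![Polynomial.C l.1 * (Polynomial.X + Polynomial.C (l.2 / 2)),
    (Polynomial.X - Polynomial.C (l.2 / 2)) * Polynomial.C l.1⁻¹] Q

open Classical in
/-- positions of the points of `Q` on `l` -/
noncomputable def Rts (Q : R2 k) (l : L × L) : Finset L := (fl Q l).roots.toFinset

/-- `dz/dw` along `Q` -/
noncomputable def qv (Q : R2 k) (A : L × L) : L := -ev A (pderiv 1 Q) / ev A (pderiv 0 Q)

/-- reflection of `l` in `Q` at the point with position `x` -/
noncomputable def rfx (Q : R2 k) (l : L × L) (x : L) : L × L :=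
  thru (pt l x) (qv Q (pt l x) / l.1)

/-- `π` is a prime other than `t` of odd multiplicity in `n` -/
def OddP (n π : R2 k) : Prop :=
  Irreducible π ∧ ¬ Associated π (X 0) ∧ Odd (multiplicity π n)

/-- `d` is the discriminant of `Q` on lines -/
def IsDisc (Q d : R2 k) : Prop :=
  ∀ (M : Type) [Field M] [Algebra k M] (l : M × M) (a : M) (x : Fin Q.totalDegree → M), l.1 ≠ 0 →
    fl Q l = Polynomial.C a * ∏ i, (Polynomial.X - Polynomial.C (x i)) →
    ev l d = (l.1 ^ Q.totalDegree * a) ^ (2 * Q.totalDegree) * (Matrix.vandermonde x).det ^ 2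

open Classical in
/-- the discriminant -/
noncomputable def disc (Q : R2 k) : R2 k := if h : ∃ d, IsDisc Q d then h.choose else 0

/-- the curve is real for the involution `τ` -/
def RealC (τ : k →+* k) (Q : R2 k) : Prop :=
  ∃ c : k, c ≠ 0 ∧ rename (Equiv.swap 0 1) (MvPolynomial.map τ Q) = C c * Q

/-- a mirror: real irreducible curve of degree at least two -/
structure Mir (τ : k →+* k) (Q : R2 k) : Prop where
  irr : Irreducible Q
  deg : 2 ≤ Q.totalDegree
  real : RealC τ Q

/-- `l` and `l'` are generic lines, reflected in `Q` at the point `A` -/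
structure Lk (Q : R2 k) (l A l' : L × L) : Prop where
  gen : Gen k l
  gen' : Gen k l'
  on : On l A
  on' : On l' A
  zero : ev A Q = 0
  law : l.1 * l'.1 = qv Q A

/-- conic `a z² + b z w + c w² + d z + e w + f` -/
@[ext] structure Conic (k : Type) where
  a : k
  b : k
  c : k
  d : k
  e : k
  f : k

/-- `c0 P² + P (b1 t + b2 / t) + B t² + c1 + A / t²` -/
@[ext] structure QF (k : Type) where
  c0 : k
  b1 : k
  b2 : k
  B : k
  c1 : k
  A : k

noncomputable def Conic.poly (q : Conic k) : R2 k :=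
  C q.a * X 0 ^ 2 + C q.b * X 0 * X 1 + C q.c * X 1 ^ 2 + C q.d * X 0 + C q.e * X 1 + C q.f

def Conic.Δ (q : Conic k) : k :=
  q.a * q.e ^ 2 - q.b * q.d * q.e + q.c * q.d ^ 2 + q.f * (q.b ^ 2 - 4 * q.a * q.c)

/-- the discriminant of the conic on a line -/
def Conic.dQ (q : Conic k) : QF k :=
  ⟨q.b ^ 2 - 4 * q.a * q.c, 4 * q.a * q.e - 2 * q.b * q.d, 2 * q.b * q.e - 4 * q.c * q.d,
    q.d ^ 2 - 4 * q.a * q.f, 2 * q.d * q.e - 4 * q.b * q.f, q.e ^ 2 - 4 * q.c * q.f⟩

/-- Joachimsthal quantity `Q_z t + Q_w / t` -/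
noncomputable def yv (Q : R2 k) (l A : L × L) : L :=
  ev A (pderiv 0 Q) * l.1 + ev A (pderiv 1 Q) / l.1

noncomputable def QF.val (J : QF k) (l : L × L) : L :=
  algebraMap k L J.c0 * l.2 ^ 2 + l.2 * (algebraMap k L J.b1 * l.1 + algebraMap k L J.b2 / l.1)
    + algebraMap k L J.B * l.1 ^ 2 + algebraMap k L J.c1 + algebraMap k L J.A / l.1 ^ 2

/-- `t² (J - c)` as a polynomial -/
noncomputable def QF.lev (J : QF k) (c : k) : R2 k :=
  C J.c0 * X 0 ^ 2 * X 1 ^ 2 + X 1 * (C J.b1 * X 0 ^ 3 + C J.b2 * X 0) + C J.B * X 0 ^ 4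
    + C (J.c1 - c) * X 0 ^ 2 + C J.A

/-- `J` is constant modulo `π` -/
def QF.Vert (J : QF k) (π : R2 k) : Prop := ∃ c, π ∣ J.lev c

/-- `J' = u J + v` -/
def QF.Same (J J' : QF k) : Prop :=
  ∃ u v : k, u ≠ 0 ∧ J' = ⟨u * J.c0, u * J.b1, u * J.b2, u * J.B, u * J.c1 + v, u * J.A⟩

end Geo

/-- an algebraic chain: lines `l 0 … l N`, points `A 1 … A N` on mirrors `Q 1 … Q N` -/
structure Chain {k : Type} [Field k] (τ : k →+* k) (Ω : Type) [Field Ω] [Algebra k Ω] where
  N : ℕ
  l : ℕ → Ω × Ω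
  A : ℕ → Ω × Ω
  Q : ℕ → R2 k
  gen0 : Gen k (l 0)
  mir : ∀ j, 1 ≤ j → j ≤ N → Mir τ (Q j)
  lk : ∀ j, j < N → Lk (Q (j + 1)) (l j) (A (j + 1)) (l (j + 1))
  ne : ∀ j, 1 ≤ j → j < N → A j ≠ A (j + 1)
  nrm : ∀ i j, 1 ≤ i → i ≤ N → 1 ≤ j → j ≤ N → Associated (Q i) (Q j) → Q i = Q j
  sgn : ∀ i j, i < N → j < N → Q (i + 1) = Q (j + 1) → (Q (i + 1)).totalDegree = 2 →
    yv (Q (i + 1)) (l i) (A (i + 1)) + yv (Q (j + 1)) (l j) (A (j + 1)) ≠ 0

/-- the field generated by the lines `l a … l b` -/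
noncomputable def Chain.M {k Ω : Type} [Field k] [Field Ω] [Algebra k Ω] {τ : k →+* k}
    (ch : Chain τ Ω) (a b : ℕ) : IntermediateField k Ω :=
  ⨆ i ∈ Set.Icc a b, Fd k (ch.l i)

end Ivrii
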