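import Pool.Agent.P.MP_7a8567_an.Gl.Ker
import Pool.Agent.P.MP_7a8567_an.Alg.Conic
import Pool.Agent.P.MP_7a8567_an.T.Defs
import Pool.Agent.P.MP_7a8567_an.T.Ext

set_option autoImplicit false

/-! From the purely algebraic statement to runs of algebraic links of a periodic chain. -/

namespace Ivrii.Gl

open MvPolynomial

variable {k Ω : Type} [Field k] [Field Ω] [Algebra k Ω]

theorem der_P (D : Derivation k Ω Ω) {z w t q : Ω} (ht : t ≠ 0) (h : D z = q * D w) :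
    D (z / t - w * t) = (q / t - t) * D w - (z / t + w * t) * (D t / t) := by
  rw [map_sub, D.leibniz_div, D.leibniz, h]
  simp only [smul_eq_mul]
  field_simp
  ring

section Link

variable (γ : A0.Closed k Ω)

/-- The point number `j`. -/
def pA (j : ℕ) : Ω × Ω := (γ.z j, γ.w j)

/-- The line number `j`. -/
def pl (j : ℕ) : Ω × Ω := (γ.t j, γ.P j)

theorem t_ne_succ (j : ℕ) : γ.t (j + 1) ≠ γ.t j := by
  intro h
  have := γ.pp j j 1 1 one_ne_zero one_ne_zero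
  simp [h] at this

theorem cancel (j : ℕ) {x : Ω} (h1 : x * γ.D₁ (γ.w (j + 1)) = 0)
    (h2 : x * γ.D₂ (γ.w (j + 1)) = 0) : x = 0 := by
  by_contra hx
  have a1 := (mul_eq_zero.1 h1).resolve_left hx
  have a2 := (mul_eq_zero.1 h2).resolve_left hx
  have hb := γ.br j
  rw [γ.on₁ j, der_P γ.D₁ (γ.t_ne j) (γ.dz₁ _), der_P γ.D₂ (γ.t_ne j) (γ.dz₂ _), a1, a2] at hb
  apply γ.t_ne j
  linear_combination -hb

theorem w_nc (j : ℕ) (c : k) : algebraMap k Ω c ≠ γ.w (j + 1) := fun h =>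
  one_ne_zero (cancel γ j (x := 1) (by rw [← h]; simp) (by rw [← h]; simp))

theorem gen_l [IsAlgClosed k] [CharZero k] (j : ℕ) : Gen k (pl γ j) :=
  gen_of_br γ.D₁ γ.D₂ (by
    change γ.D₁ (γ.P j) * γ.D₂ (γ.t j) - γ.D₂ (γ.P j) * γ.D₁ (γ.t j) ≠ 0
    rw [γ.br]; exact γ.t_ne j)

theorem first_rel (j : ℕ) {Q : R2 k} (h0 : ev (pA γ (j + 1)) Q = 0) :
    ev (pA γ (j + 1)) (pderiv 0 Q) * γ.q (j + 1) + ev (pA γ (j + 1)) (pderiv 1 Q) = 0 := by
  have e1 := der_ev γ.D₁ (pA γ (j + 1)) Q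
  have e2 := der_ev γ.D₂ (pA γ (j + 1)) Q
  rw [h0, map_zero] at e1 e2
  simp only [pA, γ.dz₁, γ.dz₂] at e1 e2 ⊢
  exact cancel γ j (by linear_combination -e1) (by linear_combination -e2)

theorem Qz_ne [IsAlgClosed k] [CharZero k] (j : ℕ) {Q : R2 k} (hQ : Irreducible Q)
    (h0 : ev (pA γ (j + 1)) Q = 0) : ev (pA γ (j + 1)) (pderiv 0 Q) ≠ 0 := fun h => by
  have := first_rel γ j h0
  rw [h, zero_mul, zero_add] at this
  exact grad_ne hQ h0 (Or.inr (w_nc γ j)) h this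

theorem qv_eq [IsAlgClosed k] [CharZero k] (j : ℕ) {Q : R2 k} (hQ : Irreducible Q)
    (h0 : ev (pA γ (j + 1)) Q = 0) : qv Q (pA γ (j + 1)) = γ.q (j + 1) := by
  rw [qv, div_eq_iff (Qz_ne γ j hQ h0)]
  linear_combination -first_rel γ j h0

theorem two_le_deg [IsAlgClosed k] [CharZero k] (j : ℕ) {Q : R2 k} (hQ : Irreducible Q)
    (h0 : ev (pA γ (j + 1)) Q = 0) : 2 ≤ Q.totalDegree := by
  by_contra hlt
  have key : ∀ i, ∃ c : k, pderiv i Q = C c := fun i => by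
    by_cases h : pderiv i Q = 0
    · exact ⟨0, by rw [h, C_0]⟩
    · have := deg_pderiv h
      exact ⟨_, totalDegree_eq_zero_iff_eq_C.1 (by omega)⟩
  obtain ⟨a, ha⟩ := key 0
  obtain ⟨b, hb⟩ := key 1
  have e := qv_eq γ j hQ h0
  rw [qv, ha, hb, ev_C, ev_C, ← map_neg, ← map_div₀] at e
  refine γ.c_ne (j + 1) (cancel γ j ?_ ?_)
  · rw [← γ.dq₁, ← e, Derivation.map_algebraMap]
  · rw [← γ.dq₂, ← e, Derivation.map_algebraMap]

/-- The involution of the constants. -/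
noncomputable def τk : k →+* k where
  toFun a := (γ.τk a).choose
  map_one' := (algebraMap k Ω).injective (by rw [← (γ.τk 1).choose_spec]; simp)
  map_zero' := (algebraMap k Ω).injective (by rw [← (γ.τk 0).choose_spec]; simp)
  map_mul' a b := (algebraMap k Ω).injective (by
    rw [← (γ.τk _).choose_spec, map_mul, map_mul, map_mul, ← (γ.τk a).choose_spec,
      ← (γ.τk b).choose_spec])
  map_add' a b := (algebraMap k Ω).injective (by
    rw [← (γ.τk _).choose_spec, map_add, map_add, map_add, ← (γ.τk a).choose_spec,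
      ← (γ.τk b).choose_spec])

theorem τk_spec (a : k) : γ.τ (algebraMap k Ω a) = algebraMap k Ω (τk γ a) :=
  (γ.τk a).choose_spec

theorem τk_τk (a : k) : τk γ (τk γ a) = a :=
  (algebraMap k Ω).injective (by rw [← τk_spec, ← τk_spec, γ.ττ])

theorem ev_cj_A (j : ℕ) (f : R2 k) : ev (pA γ j) (cj (τk γ) f) = γ.τ (ev (pA γ j) f) :=
  ev_cj (τk_spec γ) (γ.τz j) (by simp only [pA]; rw [← γ.τz, γ.ττ]) f

theorem mir [IsAlgClosed k] [CharZero k] (j : ℕ) {Q : R2 k} (hQ : Irreducible Q)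
    (h0 : ev (pA γ (j + 1)) Q = 0) : Mir (τk γ) Q :=
  ⟨hQ, two_le_deg γ j hQ h0, realC_of_dvd (τk_τk γ) hQ.ne_zero
    (dvd_of_ev hQ h0 (Or.inr (w_nc γ j)) (by rw [ev_cj_A, h0, map_zero]))⟩

theorem lk [IsAlgClosed k] [CharZero k] (j : ℕ) {Q : R2 k} (hQ : Irreducible Q)
    (h0 : ev (pA γ (j + 1)) Q = 0) : Lk Q (pl γ j) (pA γ (j + 1)) (pl γ (j + 1)) :=
  ⟨gen_l γ j, gen_l γ (j + 1), γ.on₁ j, γ.on₀ (j + 1), h0, by
    rw [qv_eq γ j hQ h0]; exact (γ.refl j).symm⟩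

theorem ev_conic (q : Conic k) (a : Ω × Ω) :
    ev a q.poly = algebraMap k Ω q.a * a.1 ^ 2 + algebraMap k Ω q.b * a.1 * a.2 +
      algebraMap k Ω q.c * a.2 ^ 2 + algebraMap k Ω q.d * a.1 + algebraMap k Ω q.e * a.2 +
      algebraMap k Ω q.f := by
  simp [Conic.poly, ev_X0, ev_X1]

theorem ev_conic_z (q : Conic k) (a : Ω × Ω) :
    ev a (pderiv 0 q.poly) = 2 * algebraMap k Ω q.a * a.1 + algebraMap k Ω q.b * a.2 +
      algebraMap k Ω q.d := by
  simp [Conic.poly, ev_X0, ev_X1, map_ofNat]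
  ring

theorem ev_conic_w (q : Conic k) (a : Ω × Ω) :
    ev a (pderiv 1 q.poly) = algebraMap k Ω q.b * a.1 + 2 * algebraMap k Ω q.c * a.2 +
      algebraMap k Ω q.e := by
  simp [Conic.poly, ev_X0, ev_X1, map_ofNat]
  ring

theorem yv_eq [IsAlgClosed k] [CharZero k] (j : ℕ) {q : Conic k} (hQ : Irreducible q.poly)
    (h0 : ev (pA γ (j + 1)) q.poly = 0) {u : k}
    (hu : cj (τk γ) q.poly = C u * q.poly) :
    yv q.poly (pl γ j) (pA γ (j + 1)) = -2 * algebraMap k Ω q.Δ * algebraMap k Ω u *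
      (γ.q (j + 1) * (γ.t (j + 1) - γ.t j) / γ.c (j + 1) *
        ((ev (pA γ (j + 1)) (pderiv 0 q.poly))⁻¹ *
          γ.τ (ev (pA γ (j + 1)) (pderiv 0 q.poly))⁻¹)) := by
  have hz := Qz_ne γ j hQ h0
  have r1 := first_rel γ j h0
  have hτ : γ.τ (ev (pA γ (j + 1)) (pderiv 0 q.poly)) =
      algebraMap k Ω u * ev (pA γ (j + 1)) (pderiv 1 q.poly) := by
    rw [← ev_cj_A, ← pderiv_cj, hu, pderiv_C_mul, map_mul, ev_C]
  have hτ0 : γ.τ (ev (pA γ (j + 1)) (pderiv 0 q.poly)) ≠ 0 := (map_ne_zero _).2 hz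
  rw [hτ] at hτ0
  have hu0 := left_ne_zero_of_mul hτ0
  have r2 : 2 * (algebraMap k Ω q.a * γ.q (j + 1) ^ 2 + algebraMap k Ω q.b * γ.q (j + 1) +
      algebraMap k Ω q.c) + ev (pA γ (j + 1)) (pderiv 0 q.poly) * γ.c (j + 1) = 0 := by
    have e1 := congrArg γ.D₁ r1
    have e2 := congrArg γ.D₂ r1
    have two1 : γ.D₁ 2 = 0 := γ.D₁.map_natCast 2
    have two2 : γ.D₂ 2 = 0 := γ.D₂.map_natCast 2
    rw [ev_conic_z, ev_conic_w] at e1 e2
    rw [ev_conic_z]
    simp only [pA, map_add, Derivation.leibniz, smul_eq_mul, Derivation.map_algebraMap, map_zero,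
      two1, two2, γ.dz₁, γ.dz₂, γ.dq₁, γ.dq₂] at e1 e2 ⊢
    exact cancel γ j (by linear_combination e1) (by linear_combination e2)
  have r3 : algebraMap k Ω q.a * ev (pA γ (j + 1)) (pderiv 1 q.poly) ^ 2 -
      algebraMap k Ω q.b * ev (pA γ (j + 1)) (pderiv 0 q.poly) *
        ev (pA γ (j + 1)) (pderiv 1 q.poly) +
      algebraMap k Ω q.c * ev (pA γ (j + 1)) (pderiv 0 q.poly) ^ 2 = algebraMap k Ω q.Δ := by
    rw [ev_conic] at h0
    rw [ev_conic_z, ev_conic_w, Conic.Δ]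
    simp only [map_add, map_sub, map_mul, map_pow, map_ofNat]
    linear_combination (4 * algebraMap k Ω q.a * algebraMap k Ω q.c - algebraMap k Ω q.b ^ 2) * h0
  rw [map_inv₀, hτ, yv]
  generalize ev (pA γ (j + 1)) (pderiv 0 q.poly) = Z at *
  generalize ev (pA γ (j + 1)) (pderiv 1 q.poly) = W at *
  have hW : W = -Z * γ.q (j + 1) := by linear_combination r1
  have a := γ.t_ne j
  have b := γ.t_ne (j + 1)
  have c := γ.c_ne (j + 1)
  have r4 : -2 * algebraMap k Ω q.Δ = Z ^ 3 * γ.c (j + 1) := by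
    rw [← r3, hW]
    linear_combination -Z ^ 2 * r2
  rw [r4, hW, γ.refl]
  simp only [pl]
  field_simp
  ring

theorem sgn [IsAlgClosed k] [CharZero k] (i j : ℕ) {Q : R2 k} (hQ : Irreducible Q)
    (hd : Q.totalDegree = 2) (hi : ev (pA γ (i + 1)) Q = 0) (hj : ev (pA γ (j + 1)) Q = 0) :
    yv Q (pl γ i) (pA γ (i + 1)) + yv Q (pl γ j) (pA γ (j + 1)) ≠ 0 := by
  have : CharZero Ω := charZero_of_injective_algebraMap (algebraMap k Ω).injective
  obtain ⟨u, hu0, hu⟩ := (mir γ i hQ hi).real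
  obtain ⟨q, rfl, hΔ⟩ := conic_spec Q hQ hd
  rw [yv_eq γ i hQ hi hu, yv_eq γ j hQ hj hu, ← mul_add]
  refine mul_ne_zero (mul_ne_zero (mul_ne_zero (by norm_num) ((map_ne_zero _).2 hΔ))
    ((map_ne_zero _).2 hu0)) ?_
  exact γ.pp i j _ _ (inv_ne_zero (Qz_ne γ i hQ hi)) (inv_ne_zero (Qz_ne γ j hQ hj))

theorem kill_step [IsAlgClosed k] [CharZero k] (j : ℕ) {Q : R2 k} (hQ : Irreducible Q)
    (h0 : ev (pA γ (j + 1)) Q = 0) (D : Derivation k Ω Ω) (h1 : D (γ.t j) = 0)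
    (h2 : D (γ.P j) = 0) : (D (γ.z (j + 1)) = 0 ∧ D (γ.w (j + 1)) = 0) ∧
      D (γ.t (j + 1)) = 0 ∧ D (γ.P (j + 1)) = 0 := by
  have a := γ.t_ne j
  have b := γ.t_ne (j + 1)
  have e1 : D (γ.z (j + 1)) = γ.t j ^ 2 * D (γ.w (j + 1)) := by
    rw [γ.on₁ j, map_sub, D.leibniz_div, D.leibniz, h1] at h2
    simp only [smul_eq_mul] at h2
    field_simp at h2
    exact mul_left_cancel₀ a (by linear_combination h2)
  have e2 := der_ev D (pA γ (j + 1)) Q
  have r1 := first_rel γ j h0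
  rw [h0, map_zero] at e2
  simp only [pA] at e2 r1
  have hw : D (γ.w (j + 1)) = 0 := by
    refine (mul_eq_zero.1 ?_).resolve_left (mul_ne_zero (mul_ne_zero (Qz_ne γ j hQ h0) a)
      (sub_ne_zero.2 (t_ne_succ γ j)))
    rw [e1] at e2
    rw [γ.refl] at r1
    simp only [pA]
    linear_combination e2 + D (γ.w (j + 1)) * r1
  have hz : D (γ.z (j + 1)) = 0 := by rw [e1, hw, mul_zero]
  have hev : ∀ f : R2 k, D (ev (pA γ (j + 1)) f) = 0 := fun f => by
    rw [der_ev]; simp [pA, hz, hw]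
  have hq : D (γ.q (j + 1)) = 0 := by
    rw [← qv_eq γ j hQ h0, qv, D.leibniz_div, map_neg, hev, hev]; simp
  have ht : D (γ.t (j + 1)) = 0 := by
    rw [γ.refl, D.leibniz, h1] at hq
    simpa [a] using hq
  refine ⟨⟨hz, hw⟩, ht, ?_⟩
  rw [γ.on₀, map_sub, D.leibniz_div, D.leibniz, hz, hw, ht]
  simp

end Link

section Sub

variable {E : Type} [Field E] [Algebra k E] (ψ : E →ₐ[k] Ω)

theorem gen_of_map {l : E × E} (h : Gen k (Prod.map ψ ψ l)) : Gen k l := by
  refine AlgebraicIndependent.of_comp ψ ?_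
  unfold Gen at h
  convert h using 1
  ext i; fin_cases i <;> simp

theorem on_of_map {l A : E × E} (h : On (Prod.map ψ ψ l) (Prod.map ψ ψ A)) : On l A :=
  ψ.injective (by simpa [On] using h)

theorem lk_of_map {Q : R2 k} {l A l' : E × E}
    (h : Lk Q (Prod.map ψ ψ l) (Prod.map ψ ψ A) (Prod.map ψ ψ l')) : Lk Q l A l' :=
  ⟨gen_of_map ψ h.gen, gen_of_map ψ h.gen', on_of_map ψ h.on, on_of_map ψ h.on',
    ψ.injective (by rw [map_zero]; exact (ev_map ψ A Q).trans h.zero),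
    ψ.injective (by rw [map_mul]; exact h.law.trans (qv_map ψ Q A).symm)⟩

theorem yv_map (Q : R2 k) (l A : E × E) :
    ψ (yv Q l A) = yv Q (Prod.map ψ ψ l) (Prod.map ψ ψ A) := by
  simp [yv, ev_map]

theorem Fd_map (l : E × E) : (Fd k l).map ψ = Fd k (Prod.map ψ ψ l) := by
  simp [Fd, IntermediateField.adjoin_map, Set.image_insert_eq]

end Sub

theorem td2_of {E : Type} [Field E] [Algebra k E] {l : E × E} (h : Gen k l)
    (ha : Algebra.IsAlgebraic (Fd k l) E) : TD2 k E := by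
  have hr : ∀ a : E × E, Set.range ![a.1, a.2] = {a.1, a.2} := fun a => by
    simp [Set.pair_comm]
  have hb : IsTranscendenceBasis k ![l.1, l.2] := by
    rw [h.isTranscendenceBasis_iff_isAlgebraic, hr]
    exact IntermediateField.isAlgebraic_adjoin_iff_top.1 ha
  intro a hg
  have := (AlgebraicIndependent.isTranscendenceBasis_of_lift_trdeg_le_of_finite hg
    hb.lift_cardinalMk_eq_trdeg.ge).isAlgebraic_field
  rwa [hr] at this

end Ivrii.Gl

namespace Ivrii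

open Gl MvPolynomial

/-- Glue between the algebraic half and the transcendental half. -/
theorem noAlg (H : ALG0) : T.NoAlg := by
  intro k Ω _ _ _ _ _ _ γ a m hm halg heq
  have hex : ∀ i : ℕ, ∃ Q : R2 k, 1 ≤ i → i ≤ m → Irreducible Q ∧ ev (pA γ (a + i)) Q = 0 := by
    intro i
    by_cases h : 1 ≤ i ∧ i ≤ m
    · obtain ⟨Q, hQ⟩ := exists_irr (k := k) (a := pA γ (a + i))
        (halg (a + i) (by omega) (by omega))
      exact ⟨Q, fun _ _ => hQ⟩
    · exact ⟨0, fun h1 h2 => absurd ⟨h1, h2⟩ h⟩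
  choose Q0 hQ0 using hex
  let Q : ℕ → R2 k := fun i => Quot.out (Associates.mk (Q0 i))
  have hQa : ∀ i, Associated (Q i) (Q0 i) := fun i => Associates.mk_quot_out _
  have hQ : ∀ i, i < m → Irreducible (Q (i + 1)) ∧ ev (pA γ (a + i + 1)) (Q (i + 1)) = 0 := by
    intro i hi
    obtain ⟨h1, h2⟩ := hQ0 (i + 1) (by omega) hi
    refine ⟨(hQa _).symm.irreducible h1, ?_⟩
    obtain ⟨g, hg⟩ := (hQa (i + 1)).symm.dvd
    rw [hg, map_mul, add_assoc, h2, zero_mul]
  let F := Fd k (pl γ a)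
  let E : IntermediateField k Ω := (algebraicClosure F Ω).restrictScalars k
  have hE : IsAlgClosed E := IsAlgClosure.isAlgClosed (K := algebraicClosure F Ω) F
  have kill : ∀ D : Derivation k Ω Ω, (∀ x : F, D (algebraMap F Ω x) = 0) → ∀ i, i ≤ m →
      D (γ.t (a + i)) = 0 ∧ D (γ.P (a + i)) = 0 := by
    intro D hD i
    induction i with
    | zero => exact fun _ => ⟨hD ⟨_, fst_mem_Fd (pl γ a)⟩, hD ⟨_, snd_mem_Fd (pl γ a)⟩⟩
    | succ i ih =>
      intro hi
      exact (kill_step γ (a + i) (hQ i hi).1 (hQ i hi).2 D (ih (by omega)).1 (ih (by omega)).2).2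
  have mem : ∀ y : Ω, (∀ D : Derivation k Ω Ω, (∀ x : F, D (algebraMap F Ω x) = 0) → D y = 0) →
      y ∈ E := fun y hy => mem_algebraicClosure_iff.2 (T.isAlg_of_der (k := k) hy)
  have hl : ∀ i, ∃ l : E × E, i ≤ m → Prod.map E.val E.val l = pl γ (a + i) := by
    intro i
    by_cases hi : i ≤ m
    · exact ⟨(⟨_, mem _ fun D hD => (kill D hD i hi).1⟩, ⟨_, mem _ fun D hD => (kill D hD i hi).2⟩),
        fun _ => rfl⟩
    · exact ⟨0, fun h => absurd h hi⟩
  have hA : ∀ i, ∃ A : E × E, 1 ≤ i → i ≤ m → Prod.map E.val E.val A = pA γ (a + i) := by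
    intro i
    by_cases hi : 1 ≤ i ∧ i ≤ m
    · obtain ⟨i, rfl⟩ : ∃ j, i = j + 1 := ⟨i - 1, by omega⟩
      have ks := fun D hD => (kill_step γ (a + i) (hQ i hi.2).1 (hQ i hi.2).2 D
        (kill D hD i (by omega)).1 (kill D hD i (by omega)).2).1
      exact ⟨(⟨_, mem _ fun D hD => (ks D hD).1⟩, ⟨_, mem _ fun D hD => (ks D hD).2⟩),
        fun _ _ => rfl⟩
    · exact ⟨0, fun h1 h2 => absurd ⟨h1, h2⟩ hi⟩
  choose l hl using hl
  choose A hA using hA
  have g0 : Gen k (l 0) := gen_of_map E.val (by rw [hl 0 (by omega)]; exact gen_l γ _)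
  have hF : (Fd k (l 0)).map E.val = F := by rw [Fd_map, hl 0 (by omega)]; rfl
  have htd : TD2 k E := by
    refine td2_of g0 ⟨fun x => ?_⟩
    let e : Fd k (l 0) ≃ₐ[k] F := ((Fd k (l 0)).equivMap E.val).trans
      (IntermediateField.equivOfEq hF)
    exact IsAlgebraic.of_ringHom_of_comp_eq (e : Fd k (l 0) →+* F) (E.val : E →+* Ω)
      (mem_algebraicClosure_iff.1 x.2) e.surjective E.val.injective (RingHom.ext fun _ => rfl)
  let ch : Chain (τk γ) E :=
    { N := m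
      l := l
      A := A
      Q := Q
      gen0 := g0
      mir := fun j h1 h2 => by
        obtain ⟨j, rfl⟩ : ∃ i, j = i + 1 := ⟨j - 1, by omega⟩
        exact mir γ (a + j) (hQ j h2).1 (hQ j h2).2
      lk := fun j hj => lk_of_map E.val (by
        rw [hl j hj.le, hA (j + 1) (by omega) hj, hl (j + 1) hj]
        exact lk γ (a + j) (hQ j hj).1 (hQ j hj).2)
      ne := fun j h1 h2 e => by
        have e' := congrArg (Prod.map E.val E.val) e
        rw [hA j h1 h2.le, hA (j + 1) (by omega) h2] at e'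
        exact γ.z_ne (a + j) (congrArg Prod.fst e')
      nrm := fun i j _ _ _ _ h => by
        have := Associates.mk_eq_mk_iff_associated.2 (((hQa i).symm.trans h).trans (hQa j))
        simp only [Q, this]
      sgn := fun i j hi hj e hd h => by
        have h' := congrArg E.val h
        rw [map_add, yv_map, yv_map, hl i hi.le, hl j hj.le, hA (i + 1) (by omega) hi,
          hA (j + 1) (by omega) hj, map_zero, ← e] at h'
        exact sgn γ (a + i) (a + j) (hQ i hi).1 hd (hQ i hi).2 (e ▸ (hQ j hj).2) h' }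
  refine H k E γ.ι (τk γ) (τk_τk γ) htd ch hm (IntermediateField.map_injective E.val ?_)
  change (Fd k (l m)).map E.val = (Fd k (l 0)).map E.val
  rw [hF, Fd_map, hl m le_rfl]
  exact heq

end Ivrii
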