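import Mathlib

/-! Formal Newton-Puiseux theorem over an algebraically closed field of characteristic zero. -/

open Polynomial

noncomputable section

namespace Ivrii.PX

section Ram

variable {L : Type*} [CommRing L]

/-- The ramification map `s ↦ u ^ n` on Laurent series. -/
def ram (n : ℕ+) : LaurentSeries L →+* LaurentSeries L :=
  HahnSeries.embDomainRingHom (AddMonoidHom.mulLeft ((n : ℕ) : ℤ))
    (fun _ _ h => mul_left_cancel₀ (by exact_mod_cast n.ne_zero) h)
    (fun _ _ => mul_le_mul_iff_right₀ (by exact_mod_cast n.pos))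

lemma coeff_ram_mul (n : ℕ+) (f : LaurentSeries L) (i : ℤ) :
    (ram n f).coeff (((n : ℕ) : ℤ) * i) = f.coeff i :=
  HahnSeries.embDomain_mk_coeff _ _

lemma coeff_ram_of_not_dvd (n : ℕ+) (f : LaurentSeries L) {j : ℤ} (h : ¬ ((n : ℕ) : ℤ) ∣ j) :
    (ram n f).coeff j = 0 :=
  HahnSeries.embDomain_of_notMem_range fun ⟨i, hi⟩ => h ⟨i, hi.symm⟩

lemma coeff_ram (n : ℕ+) (f : LaurentSeries L) (j : ℤ) :
    (ram n f).coeff j = if ((n : ℕ) : ℤ) ∣ j then f.coeff (j / ((n : ℕ) : ℤ)) else 0 := by
  split_ifs with h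
  · obtain ⟨i, rfl⟩ := h
    rw [coeff_ram_mul, Int.mul_ediv_cancel_left _ (by exact_mod_cast n.ne_zero)]
  · exact coeff_ram_of_not_dvd n f h

lemma ram_single (n : ℕ+) (i : ℤ) (a : L) :
    ram n (HahnSeries.single i a) = HahnSeries.single (((n : ℕ) : ℤ) * i) a :=
  HahnSeries.embDomain_single

lemma ram_C (n : ℕ+) (a : L) : ram n (HahnSeries.C a) = HahnSeries.C a :=
  HahnSeries.embDomainRingHom_C

lemma ram_injective (n : ℕ+) : Function.Injective (ram (L := L) n) :=
  HahnSeries.embDomain_injective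

lemma ram_one (f : LaurentSeries L) : ram 1 f = f := by
  ext i
  simpa using coeff_ram_mul 1 f i

lemma ram_ram (m n : ℕ+) (f : LaurentSeries L) : ram m (ram n f) = ram (m * n) f := by
  ext j
  by_cases h : ((m : ℕ) : ℤ) ∣ j
  · obtain ⟨i, rfl⟩ := h
    rw [coeff_ram_mul]
    by_cases h2 : ((n : ℕ) : ℤ) ∣ i
    · obtain ⟨l, rfl⟩ := h2
      have := coeff_ram_mul (m * n) f l
      rw [coeff_ram_mul, ← this]
      congr 1
      push_cast
      ring
    · rw [coeff_ram_of_not_dvd _ _ h2, coeff_ram_of_not_dvd]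
      intro h3
      push_cast at h3
      exact h2 ((mul_dvd_mul_iff_left (by exact_mod_cast m.ne_zero)).1 h3)
  · rw [coeff_ram_of_not_dvd _ _ h, coeff_ram_of_not_dvd]
    intro h3
    push_cast at h3
    exact h (dvd_of_mul_right_dvd h3)

lemma ram_comp (m n : ℕ+) : (ram (L := L) m).comp (ram n) = ram (m * n) :=
  RingHom.ext fun f => ram_ram m n f

lemma order_ram (n : ℕ+) (f : LaurentSeries L) : (ram n f).order = ((n : ℕ) : ℤ) * f.order := by
  have hn : (0 : ℤ) < (n : ℕ) := by exact_mod_cast n.pos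
  by_cases hf : f = 0
  · simp [hf]
  have hr : ram n f ≠ 0 := fun h => hf (ram_injective n (h.trans (map_zero _).symm))
  refine le_antisymm (HahnSeries.order_le_of_coeff_ne_zero ?_) ?_
  · rw [coeff_ram_mul]
    exact HahnSeries.coeff_order_eq_zero.not.2 hf
  · have h1 := HahnSeries.coeff_order_eq_zero.not.2 hr
    by_cases h : ((n : ℕ) : ℤ) ∣ (ram n f).order
    · obtain ⟨i, hi⟩ := h
      rw [hi, coeff_ram_mul] at h1
      rw [hi]
      exact mul_le_mul_of_nonneg_left (HahnSeries.order_le_of_coeff_ne_zero h1) hn.le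
    · exact absurd (coeff_ram_of_not_dvd n f h) h1

lemma exists_ofPowerSeries {x : LaurentSeries L} (h : ∀ j < 0, x.coeff j = 0) :
    ∃ g : PowerSeries L, HahnSeries.ofPowerSeries ℤ L g = x := by
  refine ⟨PowerSeries.mk fun n => x.coeff n, ?_⟩
  ext j
  rw [PowerSeries.coeff_coe]
  split_ifs with hj
  · exact (h j hj).symm
  · rw [PowerSeries.coeff_mk, Int.natCast_natAbs, abs_of_nonneg (not_lt.1 hj)]

end Ram

/-- Weierstrass factorisation of a polynomial is a factorisation of polynomials. -/
lemma wfactor {A : Type*} [CommRing A] [IsLocalRing A]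
    [IsAdicComplete (IsLocalRing.maximalIdeal A) A] (g : A[X])
    (hg : g.map (IsLocalRing.residue A) ≠ 0) :
    ∃ f q : A[X], f.IsDistinguishedAt (IsLocalRing.maximalIdeal A) ∧ g = f * q ∧
      IsUnit (q.coeff 0) ∧
      f.natDegree = (g.map (IsLocalRing.residue A)).natTrailingDegree := by
  have hg' : (g : PowerSeries A).map (IsLocalRing.residue A) ≠ 0 := by
    rw [← Polynomial.polynomial_map_coe]
    exact_mod_cast hg
  obtain ⟨f, h, H⟩ := PowerSeries.exists_isWeierstrassFactorization hg'
  have hf := H.isDistinguishedAt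
  have hW := hf.isWeierstrassDivisorAt'
  have hdeg : f.natDegree = _ := congr(ENat.toNat $(hf.coe_natDegree_eq_order_map f 1
    (by rw [map_one, ← Ideal.ne_top_iff_one]; exact Ideal.IsMaximal.ne_top inferInstance)
    (by simp)))
  have e : (f : PowerSeries A) * h + ((0 : A[X]) : PowerSeries A) =
      (f : PowerSeries A) * ((g /ₘ f : A[X]) : PowerSeries A) + ((g %ₘ f : A[X]) : PowerSeries A) := by
    rw [Polynomial.coe_zero, add_zero, ← H.eq_mul, ← Polynomial.coe_mul, ← Polynomial.coe_add,
      add_comm, modByMonic_add_div g f]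
  obtain ⟨e1, e2⟩ := hW.eq_of_mul_add_eq_mul_add (by simp [bot_lt_iff_ne_bot])
    (by
      rw [← hdeg, ← degree_eq_natDegree hf.monic.ne_zero]
      exact degree_modByMonic_lt g hf.monic) e
  refine ⟨f, g /ₘ f, hf, ?_, ?_, ?_⟩
  · conv_lhs => rw [← modByMonic_add_div g f, ← e2, zero_add]
  · have := PowerSeries.isUnit_iff_constantCoeff.1 H.isUnit
    rwa [e1, Polynomial.constantCoeff_coe] at this
  · rw [H.natDegree_eq_toNat_order_map, ← Polynomial.polynomial_map_coe]
    set p := g.map (IsLocalRing.residue A)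
    have : (p : PowerSeries (IsLocalRing.ResidueField A)).order = p.natTrailingDegree := by
      rw [PowerSeries.order_eq_nat]
      refine ⟨?_, fun i hi => ?_⟩
      · rw [Polynomial.coeff_coe]
        exact trailingCoeff_nonzero_iff_nonzero.2 hg
      · rw [Polynomial.coeff_coe]
        exact coeff_eq_zero_of_lt_natTrailingDegree hi
    rw [this, ENat.toNat_natCast]

instance (L : Type*) [Field L] :
    IsAdicComplete (IsLocalRing.maximalIdeal (PowerSeries L)) (PowerSeries L) := by
  rw [PowerSeries.maximalIdeal_eq_span_X]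
  infer_instance

variable {L : Type*} [Field L]

lemma residue_eq_zero_iff (a : PowerSeries L) :
    IsLocalRing.residue (PowerSeries L) a = 0 ↔ PowerSeries.constantCoeff a = 0 := by
  rw [IsLocalRing.residue_eq_zero_iff, PowerSeries.maximalIdeal_eq_span_X,
    Ideal.mem_span_singleton, PowerSeries.X_dvd_iff]

lemma natTrailingDegree_residue (g : (PowerSeries L)[X]) :
    (g.map (IsLocalRing.residue _)).natTrailingDegree =
      (g.map PowerSeries.constantCoeff).natTrailingDegree := by
  have : (g.map (IsLocalRing.residue _)).support = (g.map PowerSeries.constantCoeff).support := by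
    ext i
    simp only [mem_support_iff, coeff_map, ne_eq, residue_eq_zero_iff]
  unfold natTrailingDegree trailingDegree
  rw [this]

/-- Weierstrass factorisation at a point `c` of the residue field, `μ` the multiplicity. -/
lemma wfactor_at (g : (PowerSeries L)[X]) (hg : g.map PowerSeries.constantCoeff ≠ 0) (c : L) :
    ∃ f q : (PowerSeries L)[X], f.Monic ∧ g = f * q ∧
      f.map PowerSeries.constantCoeff =
        (X - C c) ^ (g.map PowerSeries.constantCoeff).rootMultiplicity c ∧
      (q.map PowerSeries.constantCoeff).eval c ≠ 0 := by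
  set π : PowerSeries L →+* L := PowerSeries.constantCoeff with hπ
  have hc : π (PowerSeries.C c) = c := by simp [hπ]
  have ht : ∀ p : (PowerSeries L)[X], ∀ r, (taylor r p).map π = taylor (π r) (p.map π) :=
    fun p r => by simp [taylor_apply, Polynomial.map_comp]
  have h1 : (taylor (PowerSeries.C c) g).map π ≠ 0 := by
    rw [ht, hc]
    exact fun h => hg ((taylor_eq_zero _ _).1 h)
  have h2 : (taylor (PowerSeries.C c) g).map (IsLocalRing.residue _) ≠ 0 := by
    intro h
    refine h1 (Polynomial.ext fun i => ?_)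
    have := congrArg (fun p => p.coeff i) h
    simp only [coeff_map, coeff_zero] at this ⊢
    exact (residue_eq_zero_iff _).1 this
  obtain ⟨f, q, hf, e, hq, hd⟩ := wfactor _ h2
  rw [natTrailingDegree_residue, ← hπ, ht, hc] at hd
  have hfm : f.map π = X ^ f.natDegree := by
    ext i
    rw [coeff_map, coeff_X_pow]
    rcases lt_trichotomy i f.natDegree with h | h | h
    · rw [if_neg h.ne]
      exact (residue_eq_zero_iff _).1 ((IsLocalRing.residue_eq_zero_iff _).2 (hf.mem h))
    · rw [if_pos h, h, hf.monic.coeff_natDegree, map_one]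
    · rw [if_neg h.ne', coeff_eq_zero_of_natDegree_lt h, map_zero]
  refine ⟨taylor (-PowerSeries.C c) f, taylor (-PowerSeries.C c) q, ?_, ?_, ?_, ?_⟩
  · rw [Monic, leadingCoeff_taylor]
    exact hf.monic
  · rw [← taylor_mul, ← e, taylor_taylor, neg_add_cancel, taylor_zero]
  · rw [ht, hfm, map_neg, hc, hd, rootMultiplicity_eq_natTrailingDegree, taylor_apply,
      taylor_apply]
    simp [sub_eq_add_neg]
  · rw [ht, map_neg, hc, taylor_eval, add_neg_cancel, ← coeff_zero_eq_eval_zero, coeff_map]
    exact (hq.map π).ne_zero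

/-- Hensel's lemma for a simple root of the reduction. -/
lemma hensel (g : (PowerSeries L)[X]) {c : L}
    (h0 : (g.map PowerSeries.constantCoeff).eval c = 0)
    (h1 : (g.map PowerSeries.constantCoeff).derivative.eval c ≠ 0) :
    ∃ y : PowerSeries L, PowerSeries.constantCoeff y = c ∧ g.eval y = 0 := by
  have hg : g.map PowerSeries.constantCoeff ≠ 0 := fun h => h1 (by simp [h])
  obtain ⟨f, q, hf, e, hm, -⟩ := wfactor_at g hg c
  have hmu : (g.map PowerSeries.constantCoeff).rootMultiplicity c = 1 := by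
    refine le_antisymm ?_ ((rootMultiplicity_pos hg).2 h0)
    by_contra h
    exact h1 ((one_lt_rootMultiplicity_iff_isRoot hg).1 (not_le.1 h)).2
  rw [hmu, pow_one] at hm
  have hd : f.natDegree = 1 := by
    rw [← hf.natDegree_map PowerSeries.constantCoeff, hm, natDegree_X_sub_C]
  have hf1 := hf.eq_X_add_C hd
  refine ⟨-f.coeff 0, ?_, ?_⟩
  · have := congrArg (fun p => p.coeff 0) hm
    simp only [coeff_map, coeff_sub, coeff_X_zero, coeff_C_zero, zero_sub] at this
    rw [map_neg, this, neg_neg]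
  · rw [e, eval_mul, hf1]
    simp

variable [IsAlgClosed L] [CharZero L]

lemma factor_of_monic (G : (PowerSeries L)[X]) (hG : G.Monic) (hd : 0 < G.natDegree)
    (h1 : PowerSeries.constantCoeff G.nextCoeff = 0) {i : ℕ} (hi : i < G.natDegree)
    (h2 : PowerSeries.constantCoeff (G.coeff i) ≠ 0) :
    ∃ f q : (PowerSeries L)[X], G = f * q ∧ f.natDegree < G.natDegree ∧
      q.natDegree < G.natDegree := by
  set π : PowerSeries L →+* L := PowerSeries.constantCoeff with hπ
  have hGm := hG.map π
  have hdm : (G.map π).natDegree = G.natDegree := hG.natDegree_map π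
  obtain ⟨c, hc⟩ := IsAlgClosed.exists_root (G.map π)
    (by rw [degree_eq_natDegree hGm.ne_zero, hdm]; exact_mod_cast hd.ne')
  obtain ⟨f, q, hf, e, hm, -⟩ := wfactor_at G hGm.ne_zero c
  rw [← hπ] at hm
  have hq : q.Monic := hf.of_mul_monic_left (e ▸ hG)
  have hs : G.natDegree = f.natDegree + q.natDegree := by rw [e, hf.natDegree_mul hq]
  have hfd : f.natDegree = (G.map π).rootMultiplicity c := by
    rw [← hf.natDegree_map π, hm, natDegree_pow, natDegree_X_sub_C, mul_one]
  have hpos : 0 < f.natDegree := hfd ▸ (rootMultiplicity_pos hGm.ne_zero).2 hc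
  refine ⟨f, q, e, ?_, by omega⟩
  by_contra h
  have hq0 : q.natDegree = 0 := by omega
  have hq1 : q = 1 := hq.natDegree_eq_zero.1 hq0
  rw [hq1, mul_one] at e
  rw [← hfd, ← e] at hm
  have h3 : (G.map π).nextCoeff = 0 := by
    rw [nextCoeff_of_natDegree_pos (hdm ▸ hd), hdm, coeff_map,
      ← nextCoeff_of_natDegree_pos hd, h1]
  rw [hm, (monic_X_sub_C c).nextCoeff_pow, nextCoeff_X_sub_C, nsmul_eq_mul, mul_eq_zero,
    neg_eq_zero, Nat.cast_eq_zero] at h3
  obtain rfl : c = 0 := h3.resolve_left hd.ne'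
  refine h2 ?_
  rw [← coeff_map, hm, map_zero, sub_zero, coeff_X_pow, if_neg hi.ne]

lemma step (f : (LaurentSeries L)[X]) (hf : f.Monic) (hd : 0 < f.natDegree)
    (h1 : f.nextCoeff = 0) (hne : f ≠ X ^ f.natDegree) :
    ∃ (n : ℕ+) (g h : (LaurentSeries L)[X]) (s : LaurentSeries L),
      f.map (ram n) = (g * h).scaleRoots s ∧ g * h ≠ 0 ∧ g.natDegree < f.natDegree ∧
        h.natDegree < f.natDegree := by
  classical
  set d := f.natDegree with hdd
  have hS : ((Finset.range d).filter fun i => f.coeff i ≠ 0).Nonempty := by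
    by_contra hS
    refine hne (Polynomial.ext fun i => ?_)
    rw [coeff_X_pow]
    rcases lt_trichotomy i d with h | h | h
    · rw [if_neg h.ne]
      by_contra h'
      exact hS ⟨i, Finset.mem_filter.2 ⟨Finset.mem_range.2 h, h'⟩⟩
    · rw [if_pos h, h, hf.coeff_natDegree]
    · rw [if_neg h.ne', coeff_eq_zero_of_natDegree_lt h]
  obtain ⟨i0, hi0, hmin⟩ := Finset.exists_min_image _
    (fun i => ((f.coeff i).order : ℚ) / ((d - i : ℕ) : ℚ)) hS
  obtain ⟨hi0, ha0⟩ := Finset.mem_filter.1 hi0
  rw [Finset.mem_range] at hi0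
  set n : ℕ+ := ⟨d - i0, by omega⟩ with hn
  have hn' : ((n : ℕ) : ℤ) = (d - i0 : ℕ) := rfl
  set p : ℤ := (f.coeff i0).order with hp
  set g := (f.map (ram n)).scaleRoots (HahnSeries.single (-p) 1) with hg
  have hfm := hf.map (ram n)
  have hdm : (f.map (ram n)).natDegree = d := hf.natDegree_map _
  have hgm : g.Monic := (monic_scaleRoots_iff _).2 hfm
  have hgd : g.natDegree = d := by rw [hg, natDegree_scaleRoots, hdm]
  have hco : ∀ i j, (g.coeff i).coeff j = (ram n (f.coeff i)).coeff (j + p * (d - i : ℕ)) := by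
    intro i j
    rw [hg, coeff_scaleRoots, hdm, coeff_map, HahnSeries.single_pow, one_pow,
      HahnSeries.coeff_mul_single, mul_one]
    congr 1
    simp only [nsmul_eq_mul]
    ring
  have hl : g ∈ lifts (HahnSeries.ofPowerSeries ℤ L) := by
    rw [lifts_iff_coeff_lifts]
    intro i
    refine exists_ofPowerSeries fun j hj => ?_
    rw [hco]
    by_cases hi : f.coeff i = 0
    · simp [hi]
    refine HahnSeries.coeff_eq_zero_of_lt_order ?_
    rw [order_ram]
    rcases lt_trichotomy i d with h | h | h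
    · have := hmin i (Finset.mem_filter.2 ⟨Finset.mem_range.2 h, hi⟩)
      rw [div_le_div_iff₀ (by exact_mod_cast n.pos) (by exact_mod_cast Nat.sub_pos_of_lt h)] at this
      have h3 : p * ((d - i : ℕ) : ℤ) ≤ (f.coeff i).order * ((d - i0 : ℕ) : ℤ) := by
        exact_mod_cast this
      rw [hn']
      linarith
    · rw [h, hf.coeff_natDegree]
      simpa using hj
    · exact absurd (coeff_eq_zero_of_natDegree_lt h) hi
  obtain ⟨G, hG, hGd, hGm⟩ := lifts_and_natDegree_eq_and_monic hl hgm
  have hc0 : ∀ i, PowerSeries.constantCoeff (G.coeff i) = (g.coeff i).coeff 0 := fun i => by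
    rw [← hG, coeff_map, ← PowerSeries.coeff_zero_eq_constantCoeff_apply]
    exact (HahnSeries.ofPowerSeries_apply_coeff (Γ := ℤ) (G.coeff i) 0).symm
  rw [hgd] at hGd
  obtain ⟨F, Q, e, hF, hQ⟩ := factor_of_monic G hGm (hGd ▸ hd) (by
      rw [nextCoeff_of_natDegree_pos (hGd ▸ hd), hc0, hco, hGd,
        ← nextCoeff_of_natDegree_pos hd, h1]
      simp) (i := i0) (hGd ▸ hi0) (by
      rw [hc0, hco, zero_add, mul_comm, ← hn', coeff_ram_mul]
      exact HahnSeries.coeff_order_eq_zero.not.2 ha0)
  have e' : F.map (HahnSeries.ofPowerSeries ℤ L) * Q.map (HahnSeries.ofPowerSeries ℤ L) = g := by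
    rw [← Polynomial.map_mul, ← e, hG]
  refine ⟨n, F.map (HahnSeries.ofPowerSeries ℤ L), Q.map (HahnSeries.ofPowerSeries ℤ L),
    HahnSeries.single p 1, ?_, e' ▸ hgm.ne_zero, natDegree_map_le.trans_lt (hGd ▸ hF),
    natDegree_map_le.trans_lt (hGd ▸ hQ)⟩
  rw [e', hg, ← scaleRoots_mul, HahnSeries.single_mul_single, neg_add_cancel, mul_one,
    HahnSeries.single_zero_one, scaleRoots_one]

/-- Newton-Puiseux. -/
theorem splits (f : (LaurentSeries L)[X]) : ∃ n : ℕ+, (f.map (ram n)).Splits := by
  induction hd : f.natDegree using Nat.strong_induction_on generalizing f with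
  | _ d ih =>
  rcases le_or_gt d 1 with h | h
  · exact ⟨1, .of_natDegree_le_one (natDegree_map_le.trans (hd ▸ h))⟩
  have hf0 : f ≠ 0 := by
    rintro rfl
    simp at hd
    omega
  have hlc := leadingCoeff_ne_zero.2 hf0
  set f0 := f * C f.leadingCoeff⁻¹ with hf0'
  have hm : f0.Monic := monic_mul_leadingCoeff_inv hf0
  have hd0 : f0.natDegree = d := by rw [hf0', natDegree_mul_C (inv_ne_zero hlc), hd]
  set r : LaurentSeries L := -(f0.nextCoeff / d) with hr
  set f1 := taylor r f0 with hf1
  have hm1 : f1.Monic := by rw [Monic, hf1, leadingCoeff_taylor]; exact hm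
  have hd1 : f1.natDegree = d := by rw [hf1, natDegree_taylor, hd0]
  have hdz : (d : LaurentSeries L) ≠ 0 := by
    rw [← map_natCast (algebraMap L (LaurentSeries L))]
    exact (_root_.map_ne_zero _).2 (Nat.cast_ne_zero.2 (by omega))
  have hn1 : f1.nextCoeff = 0 := by
    rw [nextCoeff_of_natDegree_pos (by omega), hd1, hf1, taylor_coeff]
    have h2 : (hasseDeriv (d - 1) f0).natDegree ≤ 1 :=
      (natDegree_hasseDeriv_le _ _).trans (by omega)
    rw [eq_X_add_C_of_natDegree_le_one h2]
    simp only [hasseDeriv_coeff, eval_add, eval_mul, eval_C, eval_X, zero_add, Nat.choose_self,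
      Nat.cast_one, one_mul]
    have e1 : 1 + (d - 1) = d := by omega
    have e2 : d.choose (d - 1) = d := by
      rw [Nat.choose_symm (by omega), Nat.choose_one_right]
    rw [e1, e2, ← hd0, hm.coeff_natDegree, ← nextCoeff_of_natDegree_pos (by omega), hd0, hr]
    field_simp
    ring
  have key : ∃ n : ℕ+, (f1.map (ram n)).Splits := by
    by_cases hne : f1 = X ^ f1.natDegree
    · refine ⟨1, ?_⟩
      rw [hne, Polynomial.map_pow, map_X]
      exact Splits.X_pow _
    obtain ⟨n, g, h, s, e, h0, hg, hh⟩ := step f1 hm1 (by omega) hn1 hne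
    obtain ⟨n1, H1⟩ := ih _ (hd1 ▸ hg) g rfl
    obtain ⟨n2, H2⟩ := ih _ (hd1 ▸ hh) h rfl
    refine ⟨n1 * n2 * n, ?_⟩
    rw [← ram_comp, ← map_map, e, map_scaleRoots _ _ _
      ((_root_.map_ne_zero _).2 (leadingCoeff_ne_zero.2 h0)), Polynomial.map_mul]
    refine (Splits.mul ?_ ?_).scaleRoots _
    · rw [mul_comm, ← ram_comp, ← map_map]
      exact H1.map _
    · rw [← ram_comp, ← map_map]
      exact H2.map _
  obtain ⟨n, H⟩ := key
  refine ⟨n, ?_⟩
  have e : f = C f.leadingCoeff * taylor (-r) f1 := by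
    rw [hf1, taylor_taylor, neg_add_cancel, taylor_zero, hf0', mul_comm, mul_assoc, ← C_mul,
      inv_mul_cancel₀ hlc, C_1, mul_one]
  rw [e, Polynomial.map_mul, map_C, taylor_apply, Polynomial.map_comp, Polynomial.map_add, map_X,
    map_C]
  exact (H.comp_X_add_C _).C_mul _

omit [IsAlgClosed L] [CharZero L] in
/-- Lift of an embedding to a finite extension, with prescribed image of one element. -/
lemma lift_of_splits {K0 K : Type*} [Field K0] [Field K] [Algebra K0 K] {M : Type*} [Field M]
    (φ : K0 →+* M) (h : ∀ x : K, IsIntegral K0 x ∧ ((minpoly K0 x).map φ).Splits) (x : K) (y : M)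
    (hy : (minpoly K0 x).eval₂ φ y = 0) :
    ∃ ψ : K →+* M, ψ.comp (algebraMap K0 K) = φ ∧ ψ x = y := by
  let _ := φ.toAlgebra
  obtain ⟨ψ, hψ⟩ := IntermediateField.exists_algHom_of_splits_of_aeval (F := K0) (E := K) (K := M)
    h (x := x) (y := y) hy
  exact ⟨ψ, RingHom.ext fun a => ψ.commutes a, hψ⟩

/-- For a finite extension there is one ramification index over which all minimal polynomials
split. -/
theorem all_split {K0 K : Type*} [Field K0] [Field K] [Algebra K0 K] [FiniteDimensional K0 K]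
    (φ : K0 →+* LaurentSeries L) :
    ∃ n : ℕ+, ∀ x : K, ((minpoly K0 x).map ((ram n).comp φ)).Splits := by
  classical
  let N := IntermediateField.normalClosure K0 K (AlgebraicClosure K)
  obtain ⟨p, hp⟩ := Normal.exists_isSplittingField K0 N
  obtain ⟨n, hn⟩ := splits (p.map φ)
  rw [map_map] at hn
  refine ⟨n, fun x => ?_⟩
  let _ := ((ram n).comp φ).toAlgebra
  let j : N →ₐ[K0] LaurentSeries L := IsSplittingField.lift N p hn
  have h1 := Normal.splits (F := K0) (K := N) inferInstance (algebraMap K N x)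
  rw [minpoly.algebraMap_eq (algebraMap K N).injective] at h1
  exact h1.of_algHom j

/-- Puiseux embedding of a finite extension. -/
theorem embed {K0 K : Type*} [Field K0] [Field K] [Algebra K0 K] [FiniteDimensional K0 K]
    (φ : K0 →+* LaurentSeries L) :
    ∃ (n : ℕ+) (ψ : K →+* LaurentSeries L), ψ.comp (algebraMap K0 K) = (ram n).comp φ := by
  obtain ⟨n, hn⟩ := all_split (K := K) φ
  obtain ⟨ψ, h, -⟩ := lift_of_splits ((ram n).comp φ)
    (fun x : K => ⟨IsIntegral.of_finite K0 x, hn x⟩) 0 0 (by simp)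
  exact ⟨n, ψ, h⟩

/-- Puiseux embeddings with all conjugates: every root of a minimal polynomial is attained. -/
theorem embed_all {K0 K : Type*} [Field K0] [Field K] [Algebra K0 K] [FiniteDimensional K0 K]
    (φ : K0 →+* LaurentSeries L) :
    ∃ n : ℕ+, (∀ x : K, ((minpoly K0 x).map ((ram n).comp φ)).Splits) ∧
      ∀ (x : K) (y : LaurentSeries L), (minpoly K0 x).eval₂ ((ram n).comp φ) y = 0 →
        ∃ ψ : K →+* LaurentSeries L, ψ.comp (algebraMap K0 K) = (ram n).comp φ ∧ ψ x = y := by
  obtain ⟨n, hn⟩ := all_split (K := K) φ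
  exact ⟨n, hn, fun x y hy =>
    lift_of_splits _ (fun x : K => ⟨IsIntegral.of_finite K0 x, hn x⟩) x y hy⟩

end Ivrii.PX
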