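import Pool.Agent.P.MP_7a8567_an.Defs

set_option autoImplicit false

/-!
Interface statements of the algebraic half. Each is a proposition; its owner proves it under
`[IsAlgClosed k] [IsAlgClosed Ω] [CharZero k]`, `TD2 k Ω`, `∀ a, τ (τ a) = a`, `ι : ℝ →+* k`.
-/

namespace Ivrii

variable {k : Type} [Field k]

/-- the discriminant exists -/
def DISC (k : Type) [Field k] : Prop :=
  ∀ Q : R2 k, 1 ≤ Q.totalDegree → IsDisc Q (disc Q)

/-- an irreducible curve of degree two is a nondegenerate conic -/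
def CONIC (k : Type) [Field k] : Prop :=
  ∀ Q : R2 k, Irreducible Q → Q.totalDegree = 2 → ∃ q : Conic k, q.poly = Q ∧ q.Δ ≠ 0

/-- monodromy -/
def MON (k Ω : Type) [Field k] [Field Ω] [Algebra k Ω] : Prop :=
  ∀ (Q : R2 k) (l : Ω × Ω), Irreducible Q → 2 ≤ Q.totalDegree → Gen k l →
    (fl Q l).natDegree = Q.totalDegree ∧ (Rts Q l).card = Q.totalDegree ∧ Full (Fd k l) (Rts Q l)

/-- the tangent prime (TAN, ENV, NV) -/
def TANP (k : Type) [Field k] : Prop :=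
  ∀ Q : R2 k, Irreducible Q → 3 ≤ Q.totalDegree → ∃ π, OddP (disc Q) π ∧
    (∀ Q' : R2 k, Irreducible Q' → 2 ≤ Q'.totalDegree → ¬ Associated Q Q' → ¬ π ∣ disc Q') ∧
    ∀ q : Conic k, q.Δ ≠ 0 → ¬ q.dQ.Vert π

/-- pair closure -/
def PCL (τ : k →+* k) (Ω : Type) [Field Ω] [Algebra k Ω] : Prop :=
  ∀ (Q n d : R2 k) (l : Ω × Ω) (x y : Ω), Mir τ Q → 3 ≤ Q.totalDegree → n ≠ 0 → d ≠ 0 →
    (∀ π, OddP d π → OddP n π) → Gen k l → x ∈ Rts Q l → y ∈ Rts Q l → x ≠ y →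
    Gen k (rfx Q l x) → Gen k (rfx Q l y) →
    Sq (Fd k l ⊔ IntermediateField.adjoin k {x, y})
      (ev (rfx Q l x) n * ev (rfx Q l y) n * ev l d) →
    ∀ π, ¬ OddP n π

/-- statement R for a run of at least two reflections in one cubic -/
def CUB (τ : k →+* k) (Ω : Type) [Field Ω] [Algebra k Ω] : Prop :=
  ∀ (ch : Chain τ Ω) (Q : R2 k) (X : IntermediateField k Ω), 2 ≤ ch.N → Q.totalDegree = 3 →
    (∀ j, 1 ≤ j → j ≤ ch.N → ch.Q j = Q) → Fd k (ch.l ch.N) ≤ X →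
    (∀ Y, TwoSet (Fd k (ch.l ch.N)) (Rts Q (ch.l ch.N)) Y → Odd3 (Fd k (ch.l ch.N)) X Y) →
    ∀ n : R2 k, n ≠ 0 → ∀ m ∈ X, m ≠ 0 → Sq (X ⊔ ch.M 0 ch.N) (ev (ch.l 0) n * m) →
      ∀ π, ¬ OddP n π

/-- statements FIN and R for a run of reflections in conics of one family `J`; `q'` is a real
conic of another family -/
def CON (τ : k →+* k) (Ω : Type) [Field Ω] [Algebra k Ω] : Prop :=
  ∀ (ch : Chain τ Ω) (J : QF k) (q' : Conic k) (X : IntermediateField k Ω), 1 ≤ ch.N →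
    (∀ j, 1 ≤ j → j ≤ ch.N → ∃ q : Conic k, q.poly = ch.Q j ∧ q.Δ ≠ 0 ∧ J.Same q.dQ) →
    q'.Δ ≠ 0 → RealC τ q'.poly → ¬ J.Same q'.dQ → Fd k (ch.l ch.N) ≤ X →
    (∀ n : R2 k, n ≠ 0 → Sq X (ev (ch.l ch.N) n) → ∀ π, OddP n π → q'.dQ.Vert π) →
    ¬ Fd k (ch.l 0) ≤ X ∧
    ∀ n : R2 k, n ≠ 0 → ∀ m ∈ X, m ≠ 0 → Sq (X ⊔ ch.M 0 ch.N) (ev (ch.l 0) n * m) →
      ∀ π, OddP n π → J.Vert π

/-- everything section 7 uses -/
structure Tools (τ : k →+* k) (Ω : Type) [Field Ω] [Algebra k Ω] : Prop where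
  td : TD2 k Ω
  disc : DISC k
  conic : CONIC k
  mon : MON k Ω
  tanp : TANP k
  pcl : PCL τ Ω
  cub : CUB τ Ω
  con : CON τ Ω

/-- the algebraic half: no algebraic chain returns to its first field -/
def ALG0 : Prop :=
  ∀ (k Ω : Type) [Field k] [Field Ω] [Algebra k Ω] [IsAlgClosed k] [IsAlgClosed Ω] [CharZero k]
    (_ : ℝ →+* k) (τ : k →+* k), (∀ a, τ (τ a) = a) → TD2 k Ω → ∀ ch : Chain τ Ω, 1 ≤ ch.N →
    Fd k (ch.l ch.N) ≠ Fd k (ch.l 0)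

end Ivrii
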